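import Mathlib
import Pool.Agent.Helper96.ArwDefs
import Pool.Agent.Helper96.ArwTime

open scoped NNReal
open Pool.Agent.Helper96.ARW

namespace Pool.Agent.Results.MP_df6f8e_pr.DivertEdgeToSink

/-- Diverting an edge to the sink stochastically lowers the number of particles of activated
random walk: for every finite directed multigraph `G` with a sink that can be reached from every
site, every edge `e`, every sleep rate `lam` and every configuration `η` of active particles, the
process reaches a stable configuration almost surely on `G` and on `G_e`, and for every `k` the
probability that this configuration has at least `k` particles is at most as large for `G_e` as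
for `G`. -/
theorem result (V E : Type) [Fintype V] [DecidableEq V] [Fintype E] [DecidableEq E]
    (G : SinkGraph V E) (hG : ∀ x, G.Reaches x) (e : E) (lam : ℝ≥0) (η : V → ℕ) :
    arwLaw G lam (fun x => some (η x)) (endsWith G lam 0) = 1 ∧
    arwLaw (G.divert e) lam (fun x => some (η x)) (endsWith (G.divert e) lam 0) = 1 ∧
    ∀ k : ℕ, arwLaw (G.divert e) lam (fun x => some (η x)) (endsWith (G.divert e) lam k) ≤
      arwLaw G lam (fun x => some (η x)) (endsWith G lam k) :=
  ⟨arwLaw_absorbed G hG lam _,
    arwLaw_absorbed (G.divert e) (fun x => divert_reaches G e (hG x)) lam _,
    fun k => divert_le G hG e lam η k⟩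

end Pool.Agent.Results.MP_df6f8e_pr.DivertEdgeToSink
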